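import Pool.Agent.PST.StmtsU
import Pool.Agent.Helper30_PSS.S3All
import Pool.Agent.Helper41_PSS.PRQ
import Pool.Agent.Helper28_PSS.BLK

/-!
# Squad PST, block U, row BLV: the blocks of the generic fibre (helper59)
-/

set_option autoImplicit false

open scoped BigOperators TensorProduct PowerSeries

noncomputable section

namespace Pool.Agent.PST.U.H59

open Pool.Agent.PFC (tw IsTv)
open Pool.Agent.PFD.D2b (FrR)
open Pool.Agent.PSS
open Pool.Agent.PSS.S0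
open Pool.Agent.PSS.S3
open Pool.Agent.PSS.S3.H41 (fx_one fx_of_comm fx_al bq_zero exists_T)
open Pool.Agent.PSS.H28 (bk_up fx_mono)

theorem blv0 (hCLC : ClcStmt) (hBLS : BlsStmt) (hGFB : GfbStmt) (hBQX : BqxStmt) (hBPU : BpuStmt)
    (hMCK : MckStmt) (hZRT : ZrtStmt) (hFCO : FcoStmt) (hFBK : FbkStmt) : BlvStmt := by
  intro ℓ _ F F' W E As K _ _ _ _ _ _ _ _ _ _ _ _ ψ γ lam x y hinj hW hE hper0 huni0 hrf0 hab
    hvsh hunt
  classical
  obtain ⟨⟨lamS, hlamS, hrf⟩, hper, huni, -⟩ := hGFB F⟦X⟧ F' W E As K ψ γ lam x y hrf0 hper0 huni0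
  have hℓF' : (ℓ : F') = 0 := CharP.cast_eq_zero F' ℓ
  have hℓF : (ℓ : F) = 0 := CharP.cast_eq_zero F ℓ
  have hℓX : (ℓ : F⟦X⟧) = 0 := by
    rw [← map_natCast (PowerSeries.C (R := F)), hℓF, map_zero]
  choose n n' hn1 hn2 hn3 using huni
  intro Q
  induction Q using WellFoundedGT.induction with
  | ind Q ih =>
  intro e he hid hcen htop
  by_cases hQ : Q = ⊤
  · rw [hQ]
    exact htop
  have hup : ∀ Q' : Subgroup W, Q < Q' →
      e ∈ BKR (cw F' (bcw (R := F⟦X⟧) (S := F') γ)) Q' := by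
    intro Q' hQ'
    have heQ' : e ∈ FxR (cw F' (bcw (R := F⟦X⟧) (S := F') γ)) Q' := fx_mono _ le_top he
    refine ih Q' hQ' e he ?_ ?_ htop
    · exact bk_up _ hFCO hFBK ℓ hℓF' hW ψ hper hQ'.le hid
        (Submodule.sub_mem _ (H28.fx_mul _ Q' heQ' heQ') heQ')
    · intro a ha
      exact bk_up _ hFCO hFBK ℓ hℓF' hW ψ hper hQ'.le (hcen a (fx_mono _ hQ'.le ha))
        (Submodule.sub_mem _ (H28.fx_mul _ Q' heQ' ha) (H28.fx_mul _ Q' ha heQ'))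
  by_cases hclo : Clo ψ Q
  swap
  · exact hCLC ℓ F⟦X⟧ F' W E As ψ γ hinj hℓX hW hper0 Q (hvsh Q hclo) e he hup hcen
  -- `Q` is stable under `E`
  have hst : ∀ (f : E) (q : W), q ∈ Q → ψ f q ∈ Q := by
    intro f q hq
    refine hclo _ fun e' he' => ?_
    rw [← MulAut.mul_apply, hab e' f, MulAut.mul_apply, he' q hq]
  obtain ⟨w, hw⟩ : ∃ w, w ∉ Q := by
    by_contra h
    push Not at h
    exact hQ (eq_top_iff.2 fun w _ => h w)
  have hwt : ∀ t : E, ψ t w ∉ Q := by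
    intro t h
    apply hw
    have h1 := hst t⁻¹ _ h
    rwa [map_inv, MulAut.inv_apply_self] at h1
  obtain ⟨D, _, _, γD, βD, hDq⟩ := hBQX F' W (F' ⊗[F⟦X⟧] As) (bcw (R := F⟦X⟧) (S := F') γ) Q
  obtain ⟨E1, hE1⟩ : ∃ E1 : Subgroup E, ∀ e, e ∈ E1 ↔ ∀ u ∈ Q, ψ e u = u :=
    ⟨{ carrier := {e | ∀ u ∈ Q, ψ e u = u}
       one_mem' := fun u _ => by rw [map_one]; rfl
       mul_mem' := fun {a b} ha hb u hu => by
         rw [map_mul, MulAut.mul_apply, hb u hu, ha u hu]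
       inv_mem' := fun {a} ha u hu => by
         have h1 := ha u hu
         rw [map_inv]
         calc (ψ a)⁻¹ u = (ψ a)⁻¹ (ψ a u) := by rw [h1]
           _ = u := MulAut.inv_apply_self _ (ψ a) u }, fun e => Iff.rfl⟩
  obtain ⟨-, -, lamD, KD, _, xD, yD, hrfD, hlamD⟩ := hBPU ℓ F' W E (F' ⊗[F⟦X⟧] As) D K ψ
    (bcw (R := F⟦X⟧) (S := F') γ) Q γD βD lamS _ _ E1 hℓF' hW hper
    (fun e => ⟨n e, n' e, hn1 e, hn2 e, hn3 e⟩) hrf hDq hE1
  obtain ⟨T, hT1, hT2⟩ := exists_T E1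
  have hT3 : ∀ e : E, ∃! t, t ∈ T ∧ ∀ v ∈ Q, (ψ t)⁻¹ v = (ψ e)⁻¹ v := by
    intro e
    have h1 : ∀ t : E, (∀ v ∈ Q, (ψ t)⁻¹ v = (ψ e)⁻¹ v) ↔ t * e⁻¹ ∈ E1 := by
      intro t
      rw [hE1]
      refine forall₂_congr fun v _ => ?_
      rw [map_mul, map_inv, MulAut.mul_apply]
      constructor
      · intro h
        rw [← h, MulAut.apply_inv_self]
      · intro h
        conv_lhs => rw [← h]
        rw [MulAut.inv_apply_self]
    simp only [h1]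
    exact hT2 e
  have h1 := hMCK ℓ F' W E (F' ⊗[F⟦X⟧] As) D K KD ψ (bcw (R := F⟦X⟧) (S := F') γ) Q γD βD lamS
    _ _ lamD xD yD n n' T hℓF' hW hper hrf hDq hrfD hlamD (fun e => ⟨hn1 e, hn2 e, hn3 e⟩) hT3
    (bcw (R := F⟦X⟧) (S := F') γ w) (fx_al w)
  set r : F' ⊗[F⟦X⟧] As := ∑ k, ((1 : F') ⊗ₜ[F⟦X⟧] x k) * (bcw (R := F⟦X⟧) (S := F') γ w) *
    ((1 : F') ⊗ₜ[F⟦X⟧] y k) with hr
  have h2 : ∀ t, βD (n t * (bcw (R := F⟦X⟧) (S := F') γ w) * n' t) = γD (ψ t w) := by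
    intro t
    rw [hn3, mul_assoc, hn1, mul_one, hDq.om]
  simp only [h2] at h1
  -- `βD e * βD r = 0`
  have h3 : βD e * βD r = 0 := by
    rw [h1, Finset.mul_sum]
    refine Finset.sum_eq_zero fun t _ => ?_
    exact hBLS ℓ F' W E (F' ⊗[F⟦X⟧] As) D KD ψ (bcw (R := F⟦X⟧) (S := F') γ) Q γD βD lamD xD yD e
      (ψ t w) hℓF' hW hper hDq hrfD he hid hcen hup (hwt t)
  -- `r` is a central unit
  have hrc : ∀ c, c * r = r * c :=
    hZRT F' W (F' ⊗[F⟦X⟧] As) K (bcw (R := F⟦X⟧) (S := F') γ) lamS _ _ hrf _ (fx_al w)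
  obtain ⟨u, hu⟩ := hunt w
  have e1 : (1 : F') ⊗ₜ[F⟦X⟧] (∑ k, x k * γ w * y k) = r := by
    rw [hr, TensorProduct.tmul_sum]
    refine Finset.sum_congr rfl fun k _ => ?_
    show _ = ((1 : F') ⊗ₜ[F⟦X⟧] x k) * ((1 : F') ⊗ₜ[F⟦X⟧] γ w) * ((1 : F') ⊗ₜ[F⟦X⟧] y k)
    rw [Algebra.TensorProduct.tmul_mul_tmul, Algebra.TensorProduct.tmul_mul_tmul, one_mul, one_mul]
  rw [e1] at hu
  have hru : r * u = 1 := by rw [← hrc, hu]
  have huc : ∀ c, c * u = u * c := by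
    intro c
    calc c * u = u * r * c * u := by rw [hu, one_mul]
      _ = u * (r * c) * u := by rw [mul_assoc u r c]
      _ = u * (c * r) * u := by rw [hrc]
      _ = u * c * (r * u) := by simp only [mul_assoc]
      _ = u * c := by rw [hru, mul_one]
  have hrfx : r ∈ FxR (cw F' (bcw (R := F⟦X⟧) (S := F') γ)) Q := fx_of_comm fun v => hrc _
  have hufx : u ∈ FxR (cw F' (bcw (R := F⟦X⟧) (S := F') γ)) Q := fx_of_comm fun v => huc _
  have h4 : βD e = 0 := by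
    have h5 : βD r * βD u = 1 := by
      rw [← hDq.mul _ hrfx _ hufx, hru, hDq.one]
    calc βD e = βD e * (βD r * βD u) := by rw [h5, mul_one]
      _ = 0 := by rw [← mul_assoc, h3, zero_mul]
  exact (hDq.ker e (fx_mono _ le_top he)).1 h4

/-- Row BLV. -/
theorem blv (hCLC : ClcStmt) : BlvStmt :=
  blv0 hCLC All30.bls All30.gfb All30.bqx All30.bpu All30.mck All30.zrt All30.fco All30.fbk

end Pool.Agent.PST.U.H59
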