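import Pool.Agent.PST.StmtsET3

/-!
# Squad PST, row CRS: the form and the Casimir element of a corner (helper59)
-/

set_option autoImplicit false

open scoped BigOperators

noncomputable section

namespace Pool.Agent.PST.ET.H59

/-- Row CRS. -/
theorem crs (hTAU : TauStmt) : CrsStmt := by
  intro R D Y K _ _ _ _ _ _ T x y j κ hS hj hC
  have hjl : ∀ a : Y, j * κ a = κ a := by
    intro a
    rw [← hC.one, ← hC.mul, one_mul]
  have hjr : ∀ a : Y, κ a * j = κ a := by
    intro a
    rw [← hC.one, ← hC.mul, mul_one]
  have hr : ∀ d : D, ∃ b : Y, κ b = j * d * j := by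
    intro d
    refine hC.ran _ ?_ ?_
    · rw [← mul_assoc, ← mul_assoc, hj]
    · rw [mul_assoc, hj]
  choose g hg using hr
  refine ⟨fun k => g (x k), fun k => g (y k), ⟨?_, ?_, ?_⟩, ?_⟩
  · intro a b
    rw [LinearMap.comp_apply, LinearMap.comp_apply, hC.mul, hC.mul, hS.sym]
  · intro a
    apply hC.inj
    have h1 : ∀ k, T.comp κ (g (y k) * a) = T (y k * κ a) := by
      intro k
      rw [LinearMap.comp_apply, hC.mul, hg, mul_assoc, hjl, mul_assoc, hS.sym, mul_assoc, hjr]
    rw [map_sum]
    calc ∑ k, κ (T.comp κ (g (y k) * a) • g (x k))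
        = ∑ k, j * (T (y k * κ a) • x k) * j := by
          refine Finset.sum_congr rfl fun k _ => ?_
          rw [h1, map_smul, hg, mul_smul_comm, smul_mul_assoc]
      _ = j * (∑ k, T (y k * κ a) • x k) * j := by
          rw [Finset.mul_sum, Finset.sum_mul]
      _ = κ a := by rw [hS.e1, hjl, hjr]
  · intro a
    apply hC.inj
    have h1 : ∀ k, T.comp κ (a * g (x k)) = T (κ a * x k) := by
      intro k
      rw [LinearMap.comp_apply, hC.mul, hg, ← mul_assoc, ← mul_assoc, hjr, hS.sym, ← mul_assoc, hjl]
    rw [map_sum]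
    calc ∑ k, κ (T.comp κ (a * g (x k)) • g (y k))
        = ∑ k, j * (T (κ a * x k) • y k) * j := by
          refine Finset.sum_congr rfl fun k _ => ?_
          rw [h1, map_smul, hg, mul_smul_comm, smul_mul_assoc]
      _ = j * (∑ k, T (κ a * x k) • y k) * j := by
          rw [Finset.mul_sum, Finset.sum_mul]
      _ = κ a := by rw [hS.e2, hjl, hjr]
  · have h1 := (hTAU R D K T x y hS).1 j j
    rw [map_sum]
    calc ∑ k, κ (g (x k) * g (y k)) = ∑ k, j * (x k * j * y k) * j := by
          refine Finset.sum_congr rfl fun k _ => ?_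
          rw [hC.mul, hg, hg]
          calc j * x k * j * (j * y k * j) = j * x k * (j * j) * y k * j := by
                simp only [mul_assoc]
            _ = j * (x k * j * y k) * j := by
                rw [hj]
                simp only [mul_assoc]
      _ = j * (∑ k, x k * j * y k) * j := by rw [Finset.mul_sum, Finset.sum_mul]
      _ = j * ∑ k, x k * j * y k := by rw [mul_assoc, ← h1, ← mul_assoc, hj]

end Pool.Agent.PST.ET.H59
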